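import Pool.Agent.Lib_MP_b2bd43_an.Oper

open MeasureTheory Filter Topology

namespace MPb2bd43

lemma cyl_nhds {W : Set G} (hW : IsOpen W) {t : G} (ht : t ∈ W) :
    ∃ L, ∀ x : G, (∀ i < L, x i = t i) → x ∈ W := by
  obtain ⟨v, ⟨y, n, rfl⟩, h1, h2⟩ :=
    (PiNat.isTopologicalBasis_cylinders (fun _ : ℕ => ZMod 3)).exists_subset_of_mem_open ht hW
  refine ⟨n, fun x hx => h2 ?_⟩
  rw [PiNat.mem_cylinder_iff] at h1 ⊢
  intro i hi
  rw [hx i hi, h1 i hi]

lemma isOpen_cyl (t : G) (L : ℕ) : IsOpen {x : G | ∀ i < L, x i = t i} := by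
  have h1 := (PiNat.isTopologicalBasis_cylinders (fun _ : ℕ => ZMod 3)).isOpen
    ⟨t, L, rfl⟩
  have h2 : {x : G | ∀ i < L, x i = t i} = PiNat.cylinder t L := by
    ext x
    rw [PiNat.mem_cylinder_iff]
    rfl
  rw [h2]; exact h1

lemma tendsto_pairing {a : ℕ → G → ℂ} (ha : ∀ n, Continuous (a n)) {l : ℂ}
    (H : ∀ κ, Tendsto (fun n => ∫ t, a n t * ch κ t ∂μ) atTop (𝓝 (if κ = 0 then l else 0)))
    {g : C(G, ℂ)} (hg : g ∈ A Set.univ) :
    Tendsto (fun n => ∫ t, a n t * g t ∂μ) atTop (𝓝 (l * ∫ t, g t ∂μ)) := by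
  induction hg using Submodule.span_induction with
  | mem x hx =>
    obtain ⟨κ, -, rfl⟩ := hx
    have h1 : l * ∫ t, ch κ t ∂μ = if κ = 0 then l else 0 := by
      by_cases h : κ = 0
      · rw [if_pos h, h, ch_zero]; simp
      · rw [if_neg h, integral_ch h, mul_zero]
    rw [h1]
    exact H κ
  | zero => simp
  | add x y _ _ hx hy =>
    have h1 : ∀ n, ∫ t, a n t * (x + y) t ∂μ = (∫ t, a n t * x t ∂μ) + ∫ t, a n t * y t ∂μ := by
      intro n
      rw [← integral_add]
      · congr 1; funext t; rw [ContinuousMap.add_apply]; ring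
      · exact integrable_cont ((ha n).mul x.continuous)
      · exact integrable_cont ((ha n).mul y.continuous)
    have h2 : l * ∫ t, (x + y) t ∂μ = l * (∫ t, x t ∂μ) + l * ∫ t, y t ∂μ := by
      rw [← mul_add, ← integral_add]
      · rfl
      · exact integrable_cont x.continuous
      · exact integrable_cont y.continuous
    simp only [h1, h2]
    exact hx.add hy
  | smul c x _ hx =>
    have h1 : ∀ n, ∫ t, a n t * (c • x) t ∂μ = c * ∫ t, a n t * x t ∂μ := by
      intro n
      rw [← integral_const_mul]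
      congr 1; funext t; rw [ContinuousMap.smul_apply, smul_eq_mul]; ring
    have h2 : l * ∫ t, (c • x) t ∂μ = c * (l * ∫ t, x t ∂μ) := by
      have : ∫ t, (c • x) t ∂μ = c * ∫ t, x t ∂μ := by
        rw [← integral_const_mul]; rfl
      rw [this]; ring
    simp only [h1, h2]
    exact hx.const_mul c

lemma continuous_p (L : ℕ) : Continuous (p L) := by
  have : p L = fun x => (P L x).re := by
    funext x; rw [P_eq_p, Complex.ofReal_re]
  rw [this]
  exact Complex.continuous_re.comp (P L).continuous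

lemma integral_p_pos (L : ℕ) (t : G) : 0 < ∫ x, p L (x - t) ∂μ := by
  refine Continuous.integral_pos_of_hasCompactSupport_nonneg_nonzero (x := t)
    ((continuous_p L).comp (continuous_id.sub continuous_const))
    (HasCompactSupport.of_compactSpace _) (fun x => p_nonneg _ _) ?_
  have h0 : ∀ i < L, (t - t) i = 0 := fun i _ => by simp
  rw [p, if_pos h0]
  norm_num

lemma dense_good {a : ℕ → G → ℂ} (ha : ∀ n, Continuous (a n)) (hc : ∀ t, CauchySeq (fun n => a n t))
    {l : ℂ}
    (H : ∀ κ, Tendsto (fun n => ∫ t, a n t * ch κ t ∂μ) atTop (𝓝 (if κ = 0 then l else 0)))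
    {δ : ℝ} (hδ : 0 < δ) :
    ∃ U : Set G, IsOpen U ∧ Dense U ∧ ∀ t ∈ U, ∀ᶠ n in atTop, ‖a n t - l‖ ≤ 3 * δ := by
  let F : ℕ → Set G := fun k => {t | ∀ n, k ≤ n → ∀ m, k ≤ m → ‖a n t - a m t‖ ≤ δ}
  have hF : ∀ k, IsClosed (F k) := by
    intro k
    have : F k = ⋂ n, ⋂ (_ : k ≤ n), ⋂ m, ⋂ (_ : k ≤ m), {t | ‖a n t - a m t‖ ≤ δ} := by
      ext t; simp [F]
    rw [this]
    refine isClosed_iInter fun n => isClosed_iInter fun _ => isClosed_iInter fun m =>
      isClosed_iInter fun _ => ?_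
    exact isClosed_le ((ha n).sub (ha m)).norm continuous_const
  have hU : ⋃ k, F k = Set.univ := by
    rw [Set.eq_univ_iff_forall]
    intro t
    obtain ⟨k, hk⟩ := Metric.cauchySeq_iff.mp (hc t) δ hδ
    refine Set.mem_iUnion.mpr ⟨k, fun n hn m hm => ?_⟩
    have := hk n hn m hm
    rw [dist_eq_norm] at this
    exact this.le
  refine ⟨⋃ k, interior (F k), isOpen_iUnion fun k => isOpen_interior,
    dense_iUnion_interior_of_closed hF hU, ?_⟩
  intro t ht
  obtain ⟨k, hk⟩ := Set.mem_iUnion.mp ht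
  have hW : IsOpen (interior (F k) ∩ {x | ‖a k x - a k t‖ < δ}) :=
    isOpen_interior.inter (isOpen_lt ((ha k).sub continuous_const).norm continuous_const)
  obtain ⟨L, hL⟩ := cyl_nhds hW (t := t) ⟨hk, by simpa using hδ⟩
  have hg : tr t (P L) ∈ A Set.univ := tr_mem_A t (A_mono (Set.subset_univ _) (P_mem L))
  have h1 := tendsto_pairing ha H hg
  have hI : ∫ x, tr t (P L) x ∂μ = ((∫ x, p L (x - t) ∂μ : ℝ) : ℂ) := by
    rw [← integral_complex_ofReal]
    congr 1; funext x; rw [tr_apply, P_eq_p]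
  set c : ℝ := ∫ x, p L (x - t) ∂μ with hcdef
  have hcpos : 0 < c := integral_p_pos L t
  have h2 : ∀ n, k ≤ n → ‖(∫ x, a n x * tr t (P L) x ∂μ) - a k t * ∫ x, tr t (P L) x ∂μ‖
      ≤ 2 * δ * c := by
    intro n hn
    rw [← integral_const_mul, ← integral_sub]
    · refine (norm_integral_le_integral_norm _).trans ?_
      rw [hcdef, ← integral_const_mul]
      refine integral_mono_of_nonneg (Eventually.of_forall fun _ => norm_nonneg _) ?_
        (Eventually.of_forall fun x => ?_)
      · refine (Integrable.const_mul ?_ _)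
        exact (((continuous_p L).comp (continuous_id.sub continuous_const))).integrable_of_hasCompactSupport
          (HasCompactSupport.of_compactSpace _)
      · simp only
        rw [← sub_mul, norm_mul, tr_apply, P_eq_p, Complex.norm_real, Real.norm_eq_abs,
          abs_of_nonneg (p_nonneg _ _)]
        by_cases hx : ∀ i < L, (x - t) i = 0
        · refine mul_le_mul_of_nonneg_right ?_ (p_nonneg _ _)
          have hxW := hL x (fun i hi => sub_eq_zero.mp (hx i hi))
          have e1 : ‖a n x - a k x‖ ≤ δ := (interior_subset hxW.1) n hn k le_rfl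
          have e2 : ‖a k x - a k t‖ < δ := hxW.2
          calc ‖a n x - a k t‖ = ‖(a n x - a k x) + (a k x - a k t)‖ := by congr 1; ring
            _ ≤ ‖a n x - a k x‖ + ‖a k x - a k t‖ := norm_add_le _ _
            _ ≤ 2 * δ := by linarith
        · have : p L (x - t) = 0 := by rw [p, if_neg hx]
          rw [this, mul_zero, mul_zero]
    · exact integrable_cont ((ha n).mul (tr t (P L)).continuous)
    · exact integrable_cont (continuous_const.mul (tr t (P L)).continuous)
  have h3 : ‖l * (∫ x, tr t (P L) x ∂μ) - a k t * ∫ x, tr t (P L) x ∂μ‖ ≤ 2 * δ * c := by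
    refine le_of_tendsto (h1.sub_const _).norm ?_
    filter_upwards [eventually_ge_atTop k] with n hn
    exact h2 n hn
  rw [← sub_mul, norm_mul, hI, Complex.norm_real, Real.norm_eq_abs, abs_of_pos hcpos] at h3
  have h4 : ‖l - a k t‖ ≤ 2 * δ := le_of_mul_le_mul_right h3 hcpos
  filter_upwards [eventually_ge_atTop k] with n hn
  have e1 : ‖a n t - a k t‖ ≤ δ := (interior_subset hk) n hn k le_rfl
  calc ‖a n t - l‖ = ‖(a n t - a k t) - (l - a k t)‖ := by congr 1; ring
    _ ≤ ‖a n t - a k t‖ + ‖l - a k t‖ := norm_sub_le _ _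
    _ ≤ 3 * δ := by linarith

/-- Local constancy of trigonometric polynomials. -/
lemma loc_const {T : Set Γ} {f : C(G, ℂ)} (hf : f ∈ A T) :
    ∃ L, ∀ x y : G, (∀ i < L, x i = y i) → f x = f y := by
  induction hf using Submodule.span_induction with
  | mem x hx =>
    obtain ⟨γ, -, rfl⟩ := hx
    refine ⟨γ.support.sup id + 1, fun x y hxy => ?_⟩
    rw [ch_apply, ch_apply, pr_congr γ x y]
    intro i hi
    apply hxy
    have : id i ≤ γ.support.sup id := Finset.le_sup (Finsupp.mem_support_iff.mpr hi)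
    simp only [id] at this
    omega
  | zero => exact ⟨0, fun _ _ _ => rfl⟩
  | add f g _ _ hf hg =>
    obtain ⟨L1, h1⟩ := hf
    obtain ⟨L2, h2⟩ := hg
    refine ⟨max L1 L2, fun x y hxy => ?_⟩
    rw [ContinuousMap.add_apply, ContinuousMap.add_apply,
      h1 x y (fun i hi => hxy i (lt_max_of_lt_left hi)),
      h2 x y (fun i hi => hxy i (lt_max_of_lt_right hi))]
  | smul c f _ hf =>
    obtain ⟨L1, h1⟩ := hf
    refine ⟨L1, fun x y hxy => ?_⟩
    rw [ContinuousMap.smul_apply, ContinuousMap.smul_apply, h1 x y hxy]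

end MPb2bd43
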