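import Mathlib

open MeasureTheory
open scoped Pointwise

namespace MPb2bd43

/-- The compact group `(ℤ/3)^ℕ`. -/
abbrev G : Type := ℕ → ZMod 3
/-- Its dual group. -/
abbrev Γ : Type := ℕ →₀ ZMod 3

/-- The pairing between the dual group and the group. -/
noncomputable def pr (γ : Γ) (x : G) : ZMod 3 := Finsupp.linearCombination (ZMod 3) x γ

lemma pr_zero_left (x : G) : pr 0 x = 0 := by simp [pr]

lemma pr_add_left (γ κ : Γ) (x : G) : pr (γ + κ) x = pr γ x + pr κ x := by simp [pr]

lemma pr_neg_left (γ : Γ) (x : G) : pr (-γ) x = - pr γ x := by simp [pr]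

lemma pr_apply (γ : Γ) (x : G) : pr γ x = ∑ i ∈ γ.support, γ i * x i := by
  simp [pr, Finsupp.linearCombination_apply, Finsupp.sum]

lemma pr_add_right (γ : Γ) (x y : G) : pr γ (x + y) = pr γ x + pr γ y := by
  simp [pr_apply, mul_add, Finset.sum_add_distrib]

lemma pr_neg_right (γ : Γ) (x : G) : pr γ (-x) = - pr γ x := by
  simp [pr_apply]

lemma pr_single (i : ℕ) (a : ZMod 3) (x : G) : pr (Finsupp.single i a) x = a * x i := by
  simp [pr]

lemma pr_pi_single (γ : Γ) (i : ℕ) : pr γ (Pi.single i 1) = γ i := by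
  classical
  rw [pr_apply]
  by_cases h : i ∈ γ.support
  · rw [Finset.sum_eq_single i]
    · simp
    · intro b _ hb
      simp [hb]
    · intro h'; exact absurd h h'
  · rw [Finset.sum_eq_zero]
    · simpa using (Finsupp.notMem_support_iff.mp h).symm
    · intro j hj
      have : j ≠ i := by rintro rfl; exact h hj
      simp [this]

lemma pr_congr (γ : Γ) (x y : G) (h : ∀ i, γ i ≠ 0 → x i = y i) : pr γ x = pr γ y := by
  rw [pr_apply, pr_apply]
  exact Finset.sum_congr rfl fun i hi => by rw [h i (Finsupp.mem_support_iff.mp hi)]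

lemma continuous_pr (γ : Γ) : Continuous (pr γ) := by
  have : pr γ = fun x : G => ∑ i ∈ γ.support, γ i * x i := funext (pr_apply γ)
  rw [this]
  exact continuous_finsetSum _ fun i _ =>
    (continuous_of_discreteTopology (f := fun a : ZMod 3 => γ i * a)).comp (continuous_apply i)

/-- The characters. -/
noncomputable def ch (γ : Γ) : C(G, ℂ) :=
  ⟨fun x => ZMod.stdAddChar (pr γ x), (continuous_of_discreteTopology).comp (continuous_pr γ)⟩

lemma ch_apply (γ : Γ) (x : G) : ch γ x = ZMod.stdAddChar (pr γ x) := rfl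

lemma ch_zero : ch 0 = 1 := by
  ext x; simp [ch_apply, pr_zero_left]

lemma ch_add (γ κ : Γ) : ch (γ + κ) = ch γ * ch κ := by
  ext x; simp [ch_apply, pr_add_left, AddChar.map_add_eq_mul]

lemma ch_add_apply (γ : Γ) (x y : G) : ch γ (x + y) = ch γ x * ch γ y := by
  simp [ch_apply, pr_add_right, AddChar.map_add_eq_mul]

lemma norm_ch (γ : Γ) (x : G) : ‖ch γ x‖ = 1 := by
  rw [ch_apply]; exact AddChar.norm_apply _ _

lemma ch_neg_left (γ : Γ) (x : G) : ch (-γ) x = (starRingEnd ℂ) (ch γ x) := by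
  rw [ch_apply, ch_apply, pr_neg_left, AddChar.map_neg_eq_conj]

lemma ch_neg_right (γ : Γ) (x : G) : ch γ (-x) = (starRingEnd ℂ) (ch γ x) := by
  rw [ch_apply, ch_apply, pr_neg_right, AddChar.map_neg_eq_conj]

/-- Normalised Haar measure. -/
noncomputable def μ : Measure G := Measure.addHaarMeasure ⊤

instance : IsProbabilityMeasure μ := ⟨by
  have := Measure.addHaarMeasure_self (G := G) (K₀ := ⊤)
  simpa [μ] using this⟩

instance : μ.IsAddHaarMeasure := by unfold μ; infer_instance

lemma integrable_cont {f : G → ℂ} (hf : Continuous f) : Integrable f μ :=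
  hf.integrable_of_hasCompactSupport (HasCompactSupport.of_compactSpace f)

lemma integral_shift (f : G → ℂ) (t : G) : ∫ x, f (x + t) ∂μ = ∫ x, f x ∂μ :=
  integral_add_right_eq_self f t

lemma exists_ch_ne_one {γ : Γ} (h : γ ≠ 0) : ∃ t, ch γ t ≠ 1 := by
  obtain ⟨i, hi⟩ := Finsupp.ne_iff.mp h
  refine ⟨Pi.single i 1, fun h1 => hi ?_⟩
  rw [ch_apply, pr_pi_single] at h1
  have : ZMod.stdAddChar (γ i) = ZMod.stdAddChar (0 : ZMod 3) := by rw [h1, AddChar.map_zero_eq_one]
  simpa using ZMod.injective_stdAddChar this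

lemma integral_ch {γ : Γ} (h : γ ≠ 0) : ∫ x, ch γ x ∂μ = 0 := by
  obtain ⟨t, ht⟩ := exists_ch_ne_one h
  have h1 := integral_shift (fun x => ch γ x) t
  simp only [ch_add_apply] at h1
  rw [integral_mul_const] at h1
  have h2 : (∫ x, ch γ x ∂μ) * (ch γ t - 1) = 0 := by rw [mul_sub, h1]; ring
  rcases mul_eq_zero.mp h2 with h3 | h3
  · exact h3
  · exact absurd (sub_eq_zero.mp h3) ht

/-- Spans of characters. -/
noncomputable def A (S : Set Γ) : Submodule ℂ C(G, ℂ) := Submodule.span ℂ (ch '' S)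

lemma ch_mem_A {S : Set Γ} {γ : Γ} (h : γ ∈ S) : ch γ ∈ A S :=
  Submodule.subset_span ⟨γ, h, rfl⟩

lemma A_mono {S T : Set Γ} (h : S ⊆ T) : A S ≤ A T := Submodule.span_mono (Set.image_mono h)

lemma A_mul {S T U : Set Γ} (h : ∀ s ∈ S, ∀ t ∈ T, s + t ∈ U) {f g : C(G, ℂ)}
    (hf : f ∈ A S) (hg : g ∈ A T) : f * g ∈ A U := by
  have h1 : f * g ∈ A S * A T := Submodule.mul_mem_mul hf hg
  have h2 : A S * A T = Submodule.span ℂ (ch '' S * ch '' T) := Submodule.span_mul_span _ _ _
  rw [h2] at h1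
  refine Submodule.span_le.mpr ?_ h1
  rintro _ ⟨_, ⟨s, hs, rfl⟩, _, ⟨t, ht, rfl⟩, rfl⟩
  simp only
  rw [← ch_add]
  exact ch_mem_A (h s hs t ht)

/-- The idempotent attached to a character. -/
noncomputable def E (γ : Γ) : C(G, ℂ) := (1/3 : ℂ) • (ch 0 + ch γ + ch (γ + γ))

lemma stdAddChar_sum (a : ZMod 3) :
    (1/3 : ℂ) * (1 + ZMod.stdAddChar a + ZMod.stdAddChar (a + a)) = if a = 0 then 1 else 0 := by
  by_cases h : a = 0
  · subst h; simp; norm_num
  · rw [if_neg h]
    have h1 : (ZMod.stdAddChar a : ℂ) ≠ 1 := by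
      intro h1
      have : ZMod.stdAddChar a = ZMod.stdAddChar (0 : ZMod 3) := by
        rw [h1, AddChar.map_zero_eq_one]
      exact h (ZMod.injective_stdAddChar this)
    have h3 : (ZMod.stdAddChar a : ℂ) * ZMod.stdAddChar a * ZMod.stdAddChar a = 1 := by
      rw [← AddChar.map_add_eq_mul, ← AddChar.map_add_eq_mul]
      have : a + a + a = 0 := by
        clear h h1; revert a; decide
      rw [this, AddChar.map_zero_eq_one]
    rw [AddChar.map_add_eq_mul]
    have h4 : ((ZMod.stdAddChar a : ℂ) - 1) *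
        (1 + ZMod.stdAddChar a + ZMod.stdAddChar a * ZMod.stdAddChar a) = 0 := by
      linear_combination h3
    rcases mul_eq_zero.mp h4 with h5 | h5
    · exact absurd (sub_eq_zero.mp h5) h1
    · rw [h5, mul_zero]

lemma E_apply (γ : Γ) (x : G) : E γ x = if pr γ x = 0 then 1 else 0 := by
  have := stdAddChar_sum (pr γ x)
  simp only [E, ContinuousMap.smul_apply, ContinuousMap.add_apply, ch_apply, pr_add_left,
    pr_zero_left, AddChar.map_zero_eq_one, smul_eq_mul]
  exact this

lemma E_mem {S : Set Γ} {γ : Γ} (h0 : 0 ∈ S) (h1 : γ ∈ S) (h2 : γ + γ ∈ S) : E γ ∈ A S :=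
  Submodule.smul_mem _ _ (Submodule.add_mem _ (Submodule.add_mem _ (ch_mem_A h0) (ch_mem_A h1))
    (ch_mem_A h2))

/-- Indicator of the subgroup where the first `M` coordinates vanish. -/
noncomputable def P (M : ℕ) : C(G, ℂ) := ∏ i ∈ Finset.range M, E (Finsupp.single i 1)

open Classical in
lemma P_apply (M : ℕ) (x : G) : P M x = if ∀ i < M, x i = 0 then 1 else 0 := by
  rw [P, ContinuousMap.coe_prod, Finset.prod_apply]
  simp only [E_apply, pr_single, one_mul]
  rw [Finset.prod_ite_zero]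
  simp

/-- Characters supported below `M`. -/
def below (M : ℕ) : Set Γ := {γ | ∀ j, M ≤ j → γ j = 0}

lemma P_mem (M : ℕ) : P M ∈ A (below M) := by
  induction M with
  | zero =>
    have : P 0 = ch 0 := by simp [P, ch_zero]
    rw [this]
    exact ch_mem_A (by intro j _; simp)
  | succ k ih =>
    rw [P, Finset.prod_range_succ, ← P]
    refine A_mul (S := below k) (T := below (k+1)) ?_ ih ?_
    · intro s hs t ht j hj
      rw [Finsupp.add_apply, hs j (by omega), ht j hj, add_zero]
    · refine E_mem ?_ ?_ ?_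
      · intro j _; simp
      · intro j hj
        rw [Finsupp.single_apply, if_neg (by omega)]
      · intro j hj
        rw [Finsupp.add_apply, Finsupp.single_apply, if_neg (by omega), add_zero]

/-- Characters whose top index is `k`. -/
def topAt (k : ℕ) : Set Γ := {γ | γ k ≠ 0 ∧ ∀ j, k < j → γ j = 0}

lemma P_succ_sub (k : ℕ) : P (k+1) - (1/3 : ℂ) • P k ∈ A (topAt k) := by
  have h1 : P (k+1) - (1/3 : ℂ) • P k =
      P k * ((1/3 : ℂ) • (ch (Finsupp.single k 1) + ch (Finsupp.single k 1 + Finsupp.single k 1))) := by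
    rw [P, Finset.prod_range_succ, ← P, E, ch_zero]
    ext x
    simp only [ContinuousMap.sub_apply, ContinuousMap.mul_apply, ContinuousMap.smul_apply,
      ContinuousMap.add_apply, ContinuousMap.one_apply, smul_eq_mul]
    ring
  rw [h1]
  refine A_mul (S := below k) (T := {Finsupp.single k 1, Finsupp.single k 1 + Finsupp.single k 1})
    ?_ (P_mem k) ?_
  · intro s hs t ht
    rcases ht with ht | ht
    · subst ht
      refine ⟨?_, ?_⟩
      · rw [Finsupp.add_apply, hs k le_rfl]; simp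
      · intro j hj
        rw [Finsupp.add_apply, hs j hj.le, Finsupp.single_apply, if_neg (by omega), add_zero]
    · have ht' : t = Finsupp.single k 1 + Finsupp.single k 1 := ht
      subst ht'
      refine ⟨?_, ?_⟩
      · rw [Finsupp.add_apply, hs k le_rfl, Finsupp.add_apply, Finsupp.single_apply, if_pos rfl]
        decide
      · intro j hj
        rw [Finsupp.add_apply, hs j hj.le, Finsupp.add_apply, Finsupp.single_apply,
          if_neg (by omega), add_zero, add_zero]
  · refine Submodule.smul_mem _ _ (Submodule.add_mem _ (ch_mem_A ?_) (ch_mem_A ?_))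
    · exact Or.inl rfl
    · exact Or.inr rfl

lemma peak_mem {N M : ℕ} (h : N ≤ M) :
    P M - ((1/3 : ℂ)^(M - N)) • P N ∈ A {γ | ∃ k, N ≤ k ∧ k < M ∧ γ ∈ topAt k} := by
  induction M, h using Nat.le_induction with
  | base => simp
  | succ M hM ih =>
    have h1 : P (M+1) - ((1/3 : ℂ)^(M + 1 - N)) • P N =
        (P (M+1) - (1/3 : ℂ) • P M) + (1/3 : ℂ) • (P M - ((1/3 : ℂ)^(M - N)) • P N) := by
      rw [Nat.succ_sub hM, pow_succ, smul_sub, smul_smul, mul_comm ((1/3 : ℂ)^(M-N))]
      abel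
    rw [h1]
    refine Submodule.add_mem _ ?_ (Submodule.smul_mem _ _ ?_)
    · have h2 : topAt M ⊆ {γ | ∃ k, N ≤ k ∧ k < M + 1 ∧ γ ∈ topAt k} :=
        fun γ hγ => ⟨M, hM, by omega, hγ⟩
      exact A_mono h2 (P_succ_sub M)
    · refine A_mono ?_ ih
      rintro γ ⟨k, hk1, hk2, hk3⟩
      exact ⟨k, hk1, by omega, hk3⟩

end MPb2bd43
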