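import Pool.Agent.Lib_MP_b2bd43_an.Main

open MeasureTheory Filter Topology

namespace MPb2bd43

/-- Evaluation functionals. -/
noncomputable def ev (t : G) (u : ℂ) : X →L[ℝ] ℝ :=
  LinearMap.mkContinuous
    { toFun := fun g => ((starRingEnd ℂ) u * (g : C(G, ℂ)) t).re
      map_add' := by
        intro f g
        show ((starRingEnd ℂ) u * ((f : C(G, ℂ)) t + (g : C(G, ℂ)) t)).re = _
        rw [mul_add, Complex.add_re]
      map_smul' := by
        intro c f
        show ((starRingEnd ℂ) u * (c • (f : C(G, ℂ)) t)).re = c • _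
        rw [Complex.real_smul, mul_left_comm, Complex.re_ofReal_mul, smul_eq_mul] } ‖u‖ (by
    intro g
    show ‖((starRingEnd ℂ) u * (g : C(G, ℂ)) t).re‖ ≤ ‖u‖ * ‖g‖
    rw [Real.norm_eq_abs]
    refine (Complex.abs_re_le_norm _).trans ?_
    rw [norm_mul, RCLike.norm_conj]
    exact mul_le_mul_of_nonneg_left ((g : C(G, ℂ)).norm_coe_le_norm t) (norm_nonneg _))

lemma ev_apply (t : G) (u : ℂ) (g : X) : ev t u g = ((starRingEnd ℂ) u * (g : C(G, ℂ)) t).re := rfl

lemma ev_self {t : G} {F : X} (h : ‖(F : C(G, ℂ)) t‖ = 1) : ev t ((F : C(G, ℂ)) t) F = 1 := by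
  rw [ev_apply, Complex.conj_mul', h]; norm_num

lemma norm_ev {t : G} {F : X} (h1 : ‖F‖ = 1) (h : ‖(F : C(G, ℂ)) t‖ = 1) :
    ‖ev t ((F : C(G, ℂ)) t)‖ = 1 := by
  refine le_antisymm ?_ ?_
  · refine ContinuousLinearMap.opNorm_le_bound _ zero_le_one fun g => ?_
    rw [ev_apply, Real.norm_eq_abs]
    refine (Complex.abs_re_le_norm _).trans ?_
    rw [norm_mul, RCLike.norm_conj, h]
    exact mul_le_mul_of_nonneg_left ((g : C(G, ℂ)).norm_coe_le_norm t) zero_le_one
  · have := (ev t ((F : C(G, ℂ)) t)).le_opNorm F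
    rw [ev_self h, h1, mul_one, norm_one] at this
    exact this

lemma dense_approx (f : X) : ∃ g : ℕ → X, (∀ n, (g n : C(G, ℂ)) ∈ A Lam) ∧
    Tendsto g atTop (𝓝 f) := by
  have h1 : (f : C(G, ℂ)) ∈ closure (A Lam : Set C(G, ℂ)) := f.2
  obtain ⟨g, hg1, hg2⟩ := mem_closure_iff_seq_limit.mp h1
  exact ⟨fun n => ⟨g n, A_le_X (hg1 n)⟩, hg1, tendsto_subtype_rng.mpr hg2⟩

/-- The key estimate: the distance to the multiples of `i`. -/
theorem key_bound (T : X →L[ℝ] X) : ∃ b : ℝ, ∀ v : ℝ,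
    (∀ (F : X) (t : G), ‖F‖ = 1 → ‖(F : C(G, ℂ)) t‖ = 1 →
      |((starRingEnd ℂ) ((F : C(G, ℂ)) t) * (T F : C(G, ℂ)) t).re| ≤ v) →
    ‖T + cm (b * Complex.I)‖ ≤ v := by
  obtain ⟨l, hl⟩ := main_ineq T
  refine ⟨-l.im, fun v hv => ?_⟩
  have h1 := hl v hv
  set B : X →L[ℝ] X := T + cm ((-l.im : ℝ) * Complex.I) with hB
  have hv0 : 0 ≤ v := by
    have := h1 0 (Submodule.zero_mem _) (by simp) 0 1 (by simp)
    exact (abs_nonneg _).trans this
  have h2 : ∀ f : X, (f : C(G, ℂ)) ∈ A Lam → ‖f‖ < 1 → ‖B f‖ ≤ v := by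
    intro f hf hf1
    rw [Submodule.coe_norm, ContinuousMap.norm_le _ hv0]
    intro t
    set z : ℂ := (T f : C(G, ℂ)) t - l * (f : C(G, ℂ)) t with hz
    have h3 : ‖z‖ + |l.re| ≤ v := by
      obtain ⟨c, hc1, hc2⟩ := exists_unimodular z
      rcases le_or_gt 0 l.re with h0 | h0
      · have := h1 f hf hf1 t ((starRingEnd ℂ) c) (by rw [RCLike.norm_conj, hc1])
        rw [Complex.conj_conj, ← hz, hc2, Complex.ofReal_re] at this
        rw [abs_of_nonneg h0]
        exact (le_abs_self _).trans this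
      · have := h1 f hf hf1 t ((starRingEnd ℂ) (-c)) (by rw [RCLike.norm_conj, norm_neg, hc1])
        rw [Complex.conj_conj, ← hz, neg_mul, hc2, ← Complex.ofReal_neg, Complex.ofReal_re] at this
        rw [abs_of_neg h0]
        have h4 := (neg_abs_le (-‖z‖ + l.re))
        linarith
    have h5 : (B f : C(G, ℂ)) t = z + (l.re : ℂ) * (f : C(G, ℂ)) t := by
      have e1 : (B f : C(G, ℂ)) t = (T f : C(G, ℂ)) t +
          (((-l.im : ℝ) : ℂ) * Complex.I) * (f : C(G, ℂ)) t := rfl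
      rw [e1, hz]
      conv_rhs => rw [← Complex.re_add_im l]
      push_cast
      simp only [Complex.add_re, Complex.ofReal_re, Complex.mul_re, Complex.I_re, mul_zero,
        Complex.ofReal_im, Complex.I_im, mul_one, sub_self, add_zero]
      ring
    rw [h5]
    refine (norm_add_le _ _).trans ?_
    rw [norm_mul, Complex.norm_real, Real.norm_eq_abs]
    have h6 : ‖(f : C(G, ℂ)) t‖ ≤ 1 := ((f : C(G, ℂ)).norm_coe_le_norm t).trans hf1.le
    have h7 : |l.re| * ‖(f : C(G, ℂ)) t‖ ≤ |l.re| * 1 :=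
      mul_le_mul_of_nonneg_left h6 (abs_nonneg _)
    linarith
  have h3 : ∀ f : X, (f : C(G, ℂ)) ∈ A Lam → ‖B f‖ ≤ v * ‖f‖ := by
    intro f hf
    have h4 : ∀ r : ℝ, ‖f‖ < r → ‖B f‖ ≤ v * r := by
      intro r hr
      have hr0 : 0 < r := (norm_nonneg f).trans_lt hr
      have h5 := h2 (((r⁻¹ : ℝ) : ℂ) • f) (Submodule.smul_mem _ _ hf) (by
        rw [norm_smul, Complex.norm_real, Real.norm_eq_abs, abs_of_pos (inv_pos.mpr hr0),
          inv_mul_lt_iff₀ hr0, mul_one]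
        exact hr)
      have h6 : (((r⁻¹ : ℝ) : ℂ) • f : X) = (r⁻¹ : ℝ) • f := by
        rw [smul_decomp]; simp
      rw [h6, map_smul, norm_smul, Real.norm_eq_abs, abs_of_pos (inv_pos.mpr hr0),
        inv_mul_le_iff₀ hr0, mul_comm] at h5
      exact h5
    refine le_of_forall_pos_le_add fun ε hε => ?_
    have hvp : 0 < v + 1 := by linarith
    have := h4 (‖f‖ + ε / (v + 1)) (by have : 0 < ε / (v+1) := by positivity
                                       linarith)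
    refine this.trans ?_
    rw [mul_add]
    have h8 : v * (ε / (v + 1)) ≤ ε := by
      rw [mul_div_assoc', div_le_iff₀ hvp]
      nlinarith
    linarith
  refine B.opNorm_le_bound hv0 fun f => ?_
  obtain ⟨g, hg1, hg2⟩ := dense_approx f
  have e1 : Tendsto (fun n => ‖B (g n)‖) atTop (𝓝 ‖B f‖) :=
    ((B.continuous.tendsto f).comp hg2).norm
  have e2 : Tendsto (fun n => v * ‖g n‖) atTop (𝓝 (v * ‖f‖)) := hg2.norm.const_mul v
  exact le_of_tendsto_of_tendsto' e1 e2 fun n => h3 (g n) (hg1 n)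

lemma norm_hX1 : ‖hX 1‖ = 1 := by
  refine le_antisymm ?_ ?_
  · rw [Submodule.coe_norm, ContinuousMap.norm_le _ zero_le_one]
    intro x
    obtain ⟨r, hr1, hr2, hr3, -⟩ := h_vals 1 x
    show ‖h 1 x‖ ≤ 1
    rw [hr1, Complex.norm_real, Real.norm_eq_abs, abs_le]
    constructor <;> linarith
  · have := (hX 1 : C(G, ℂ)).norm_coe_le_norm 0
    have h2 : (hX 1 : C(G, ℂ)) 0 = 1 := h_zero 1
    rw [h2, norm_one] at this
    exact this

/-- The space is not a Hilbert space: failure of the parallelogram identity. -/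
lemma not_parallelogram : ∃ f g : X, ‖f + g‖ ^ 2 + ‖f - g‖ ^ 2 < 2 * (‖f‖ ^ 2 + ‖g‖ ^ 2) := by
  let s : G := Pi.single 0 1
  have hval : ∀ x, ‖h 1 x‖ ≤ 1 := fun x => by
    have := (hX 1 : C(G, ℂ)).norm_coe_le_norm x
    exact this.trans norm_hX1.le
  have hdisj : ∀ x, h 1 x = 0 ∨ h 1 (x - s) = 0 := by
    intro x
    obtain ⟨r, hr1, -, -, hr4⟩ := h_vals 1 x
    obtain ⟨q, hq1, -, -, hq4⟩ := h_vals 1 (x - s)
    by_cases h0 : r = 0
    · left; rw [hr1, h0]; simp
    · by_cases h1 : q = 0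
      · right; rw [hq1, h1]; simp
      · exfalso
        have e1 := hr4 h0 0 (by omega)
        have e2 := hq4 h1 0 (by omega)
        rw [Pi.sub_apply, e1, zero_sub, neg_eq_zero] at e2
        simp [s] at e2
  refine ⟨hX 1, trX s (hX 1), ?_⟩
  have a1 : ‖hX 1 + trX s (hX 1)‖ ≤ 1 := by
    rw [Submodule.coe_norm, ContinuousMap.norm_le _ zero_le_one]
    intro x
    show ‖h 1 x + h 1 (x - s)‖ ≤ 1
    rcases hdisj x with h0 | h0
    · rw [h0, zero_add]; exact hval _
    · rw [h0, add_zero]; exact hval _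
  have a2 : ‖hX 1 - trX s (hX 1)‖ ≤ 1 := by
    rw [Submodule.coe_norm, ContinuousMap.norm_le _ zero_le_one]
    intro x
    show ‖h 1 x - h 1 (x - s)‖ ≤ 1
    rcases hdisj x with h0 | h0
    · rw [h0, zero_sub, norm_neg]; exact hval _
    · rw [h0, sub_zero]; exact hval _
  have a3 : 1 ≤ ‖trX s (hX 1)‖ := by
    have := (trX s (hX 1) : C(G, ℂ)).norm_coe_le_norm s
    have h2 : (trX s (hX 1) : C(G, ℂ)) s = 1 := by
      show h 1 (s - s) = 1
      rw [sub_self]; exact h_zero 1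
    rw [h2, norm_one] at this
    exact this
  rw [norm_hX1]
  have b1 := norm_nonneg (hX 1 + trX s (hX 1))
  have b2 := norm_nonneg (hX 1 - trX s (hX 1))
  nlinarith

end MPb2bd43
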