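import Pool.Agent.Lib_MP_b2bd43_an.Baire

open MeasureTheory Filter Topology

namespace MPb2bd43

/-- Multiplication by a complex scalar, as a real operator. -/
noncomputable def cm (c : ℂ) : X →L[ℝ] X := (c • ContinuousLinearMap.id ℂ X).restrictScalars ℝ

lemma cm_apply (c : ℂ) (f : X) : cm c f = c • f := rfl

lemma smul_decomp (c : ℂ) (f : X) : c • f = c.re • f + c.im • (Complex.I • f) := by
  apply Subtype.ext
  ext x
  show c * (f : C(G, ℂ)) x = c.re • (f : C(G, ℂ)) x + c.im • (Complex.I * (f : C(G, ℂ)) x)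
  rw [Complex.real_smul, Complex.real_smul]
  conv_lhs => rw [← Complex.re_add_im c]
  ring

lemma semi_id {T : X →L[ℝ] X} (h : ∀ f, T (Complex.I • f) = Complex.I • T f) : IsSemi T id where
  smul := by
    intro c f
    rw [smul_decomp c f, map_add, map_smul, map_smul, h, id, smul_decomp c (T f)]
  norm := fun _ => rfl
  surj := Function.surjective_id

lemma semi_conj {T : X →L[ℝ] X} (h : ∀ f, T (Complex.I • f) = -(Complex.I • T f)) :
    IsSemi T (starRingEnd ℂ) where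
  smul := by
    intro c f
    rw [smul_decomp c f, map_add, map_smul, map_smul, h, smul_decomp ((starRingEnd ℂ) c) (T f),
      Complex.conj_re, Complex.conj_im, smul_neg]
    exact congrArg _ (neg_smul _ _).symm
  norm := fun c => RCLike.norm_conj c
  surj := fun c => ⟨(starRingEnd ℂ) c, Complex.conj_conj c⟩

/-- The complex linear part. -/
noncomputable def T1 (T : X →L[ℝ] X) : X →L[ℝ] X :=
  (1/2 : ℝ) • (T - (cm Complex.I).comp (T.comp (cm Complex.I)))

/-- The antilinear part. -/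
noncomputable def T2 (T : X →L[ℝ] X) : X →L[ℝ] X :=
  (1/2 : ℝ) • (T + (cm Complex.I).comp (T.comp (cm Complex.I)))

lemma T1_apply (T : X →L[ℝ] X) (f : X) :
    T1 T f = (1/2 : ℝ) • (T f - Complex.I • T (Complex.I • f)) := rfl

lemma T2_apply (T : X →L[ℝ] X) (f : X) :
    T2 T f = (1/2 : ℝ) • (T f + Complex.I • T (Complex.I • f)) := rfl

lemma T_eq (T : X →L[ℝ] X) (f : X) : T f = T1 T f + T2 T f := by
  rw [T1_apply, T2_apply, ← smul_add, sub_add_add_cancel, ← two_smul ℝ, smul_smul]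
  norm_num

lemma II_smul (f : X) : Complex.I • Complex.I • f = -f := by
  rw [smul_smul, Complex.I_mul_I, neg_one_smul]

lemma semi_T1 (T : X →L[ℝ] X) : IsSemi (T1 T) id := semi_id fun f => by
  rw [T1_apply, T1_apply, II_smul, map_neg, smul_comm Complex.I (1/2 : ℝ), smul_sub Complex.I,
    II_smul, smul_neg, sub_neg_eq_add, sub_neg_eq_add, add_comm]

lemma aux_T2 (a b : X) : (1/2 : ℝ) • (a + Complex.I • (-b)) =
    -(Complex.I • ((1/2 : ℝ) • (b + Complex.I • a))) := by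
  rw [smul_comm Complex.I (1/2 : ℝ), smul_add Complex.I, II_smul, smul_neg Complex.I]
  have h1 : -((1/2 : ℝ) • (Complex.I • b + -a)) = (1/2 : ℝ) • (-(Complex.I • b + -a)) :=
    (smul_neg _ _).symm
  rw [h1]
  congr 1
  abel

lemma semi_T2 (T : X →L[ℝ] X) : IsSemi (T2 T) (starRingEnd ℂ) := semi_conj fun f => by
  rw [T2_apply, T2_apply, II_smul, map_neg, aux_T2]

lemma exists_bound (κ : Γ) : ∃ B, ∀ j, B ≤ j → κ j = 0 := by
  refine ⟨κ.support.sup id + 1, fun j hj => ?_⟩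
  by_contra h
  have : id j ≤ κ.support.sup id := Finset.le_sup (Finsupp.mem_support_iff.mpr h)
  simp only [id] at this
  omega

lemma freq_T1 (T : X →L[ℝ] X) {κ : Γ} (hκ : κ ≠ 0) :
    ∃ᶠ n in atTop, ∫ t, al (T1 T) (KX n) t * ch κ t ∂μ = 0 := by
  obtain ⟨i, hi⟩ := Finsupp.ne_iff.mp hκ
  obtain ⟨B, hB⟩ := exists_bound κ
  rw [frequently_atTop]
  intro N
  refine ⟨Nat.pair i (N + B), (Nat.le_add_right _ _).trans (Nat.right_le_pair i (N + B)), ?_⟩
  set n := Nat.pair i (N + B) with hn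
  have h1 : im n = i := by rw [im, hn, Nat.unpair_pair]
  have h2 : B ≤ n := (Nat.le_add_left _ _).trans (Nat.right_le_pair i (N + B))
  have h3 := d_ge n
  refine al_coeff (semi_T1 T) (S_sub_Lam n) ?_ (K_mem n) _
  intro γ hγ f hf
  have h4 : γ + (-κ) ∉ Lam := by
    refine S_add_notMem (n := n) ?_ ?_ hγ
    · rw [h1, Finsupp.neg_apply, neg_ne_zero]; exact hi
    · intro j hj
      rw [Finsupp.neg_apply, hB j (by omega), neg_zero]
  have h5 := X_coeff hf h4
  rw [← h5]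
  congr 1
  funext t
  have h6 : -(γ + -κ) = -γ + κ := by abel
  rw [h6, ch_add, ContinuousMap.mul_apply, ch_neg_left, id]
  ring

lemma freq_T2 (T : X →L[ℝ] X) (κ : Γ) :
    ∃ᶠ n in atTop, ∫ t, al (T2 T) (KX n) t * ch κ t ∂μ = 0 := by
  obtain ⟨B, hB⟩ := exists_bound κ
  refine Eventually.frequently ?_
  filter_upwards [eventually_ge_atTop B] with n h2
  have h3 := d_ge n
  refine al_coeff (semi_T2 T) (S_sub_Lam n) ?_ (K_mem n) _
  intro γ hγ f hf
  have h4 : (-κ) - γ ∉ Lam := by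
    refine sub_S_notMem (n := n) ?_ hγ
    intro j hj
    rw [Finsupp.neg_apply, hB j (by omega), neg_zero]
  have h5 := X_coeff hf h4
  rw [← h5]
  congr 1
  funext t
  have h6 : -(-κ - γ) = γ + κ := by abel
  rw [h6, ch_add, ContinuousMap.mul_apply, Complex.conj_conj]
  ring

lemma lim_T1 (T : X →L[ℝ] X) : ∃ l : ℂ, ∀ κ, Tendsto (fun n => ∫ t, al (T1 T) (hX n) t * ch κ t ∂μ)
    atTop (𝓝 (if κ = 0 then l else 0)) := by
  obtain ⟨l, hl⟩ := cauchySeq_tendsto_of_complete (cauchy_coeff (semi_T1 T) 0)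
  refine ⟨l, fun κ => ?_⟩
  by_cases h : κ = 0
  · rw [if_pos h, h]; exact hl
  · rw [if_neg h]; exact tendsto_coeff_zero (semi_T1 T) (freq_T1 T h)

lemma lim_T2 (T : X →L[ℝ] X) : ∀ κ, Tendsto (fun n => ∫ t, al (T2 T) (hX n) t * ch κ t ∂μ)
    atTop (𝓝 (if κ = 0 then (0 : ℂ) else 0)) := by
  intro κ
  rw [ite_self]
  exact tendsto_coeff_zero (semi_T2 T) (freq_T2 T κ)

lemma h_zero (n : ℕ) : h n 0 = 1 := by
  have h0 : ∀ M, p M 0 = 1 := by
    intro M
    rw [p, if_pos]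
    intro i _
    rfl
  rw [h_apply, h0, h0, mul_one, inv_mul_cancel₀]
  · simp
  · have := eps_le n; linarith

/-- Size of the negative part of the peak functions. -/
lemma h_vals (n : ℕ) (x : G) : ∃ r : ℝ, h n x = (r : ℂ) ∧ -(2 * (1/3)^n) ≤ r ∧ r ≤ 1 ∧
    (r ≠ 0 → ∀ i < d n + 1, x i = 0) := by
  have h1 := eps_pos n
  have h2 := eps_le n
  have h3 := eps_le' n
  refine ⟨_, h_apply n x, ?_⟩
  set e : ℝ := (1/3)^(2*n+4) with he
  have h4 : (1 - e)⁻¹ ≤ 2 := by
    rw [inv_le_comm₀ (by linarith) (by norm_num)]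
    linarith
  have h5 : 0 < (1 - e)⁻¹ := inv_pos.mpr (by linarith)
  have hle : d n + 1 ≤ d (n+1) := by rw [d_succ]; omega
  have h6 := p_anti hle x
  have h7 := p_nonneg (d (n+1)) x
  have h8 := p_le_one (d n + 1) x
  refine ⟨?_, ?_, ?_⟩
  · have h9 : -e ≤ p (d (n+1)) x - e * p (d n + 1) x := by nlinarith
    have h10 : (1 - e)⁻¹ * (-e) ≤ (1 - e)⁻¹ * (p (d (n+1)) x - e * p (d n + 1) x) :=
      mul_le_mul_of_nonneg_left h9 h5.le
    have h11 : (1 - e)⁻¹ * e ≤ 2 * (1/3)^n := mul_le_mul h4 h3 h1.le (by norm_num)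
    linarith
  · have h9 : p (d (n+1)) x - e * p (d n + 1) x ≤ 1 - e := by
      have h12 := p_nonneg (d n + 1) x
      by_cases hx : ∀ i < d n + 1, x i = 0
      · have h13 : p (d n + 1) x = 1 := by rw [p, if_pos hx]
        rw [h13]
        have := p_le_one (d (n+1)) x
        linarith
      · have h13 : p (d n + 1) x = 0 := by rw [p, if_neg hx]
        rw [h13] at h6 ⊢
        linarith
    calc (1 - e)⁻¹ * (p (d (n+1)) x - e * p (d n + 1) x) ≤ (1 - e)⁻¹ * (1 - e) :=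
          mul_le_mul_of_nonneg_left h9 h5.le
      _ = 1 := inv_mul_cancel₀ (by linarith)
  · intro hne
    by_contra hx
    apply hne
    have h13 : p (d n + 1) x = 0 := by rw [p, if_neg hx]
    have h14 : p (d (n+1)) x = 0 := by
      rw [h13] at h6; exact le_antisymm h6 h7
    rw [h13, h14]; ring

/-- The main inequality. -/
theorem main_ineq (T : X →L[ℝ] X) : ∃ l : ℂ, ∀ v : ℝ,
    (∀ (F : X) (t : G), ‖F‖ = 1 → ‖(F : C(G, ℂ)) t‖ = 1 →
      |((starRingEnd ℂ) ((F : C(G, ℂ)) t) * (T F : C(G, ℂ)) t).re| ≤ v) →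
    ∀ (f : X), (f : C(G, ℂ)) ∈ A Lam → ‖f‖ < 1 → ∀ (t : G) (u : ℂ), ‖u‖ = 1 →
      |((starRingEnd ℂ) u * ((T f : C(G, ℂ)) t - l * (f : C(G, ℂ)) t)).re + l.re| ≤ v := by
  obtain ⟨l, hl⟩ := lim_T1 T
  refine ⟨l, fun v hv f hfA hf t u hu => ?_⟩
  refine le_of_forall_pos_le_add fun ε hε => ?_
  set δ : ℝ := ε / 13 with hδdef
  have hδ : 0 < δ := by positivity
  obtain ⟨U1, hU1o, hU1d, hU1⟩ := dense_good (fun n => continuous_al (T1 T) (hX n))
    (cauchy_al (semi_T1 T)) hl hδ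
  obtain ⟨U2, hU2o, hU2d, hU2⟩ := dense_good (fun n => continuous_al (T2 T) (hX n))
    (cauchy_al (semi_T2 T)) (lim_T2 T) hδ
  obtain ⟨L, hL⟩ := loc_const hfA
  have hVo : IsOpen ({x : G | ∀ i < L, x i = t i} ∩
      {x | ‖(T f : C(G, ℂ)) x - (T f : C(G, ℂ)) t‖ < δ}) :=
    (isOpen_cyl t L).inter
      (isOpen_lt (((T f : C(G, ℂ)).continuous.sub continuous_const).norm) continuous_const)
  have hVne : ({x : G | ∀ i < L, x i = t i} ∩
      {x | ‖(T f : C(G, ℂ)) x - (T f : C(G, ℂ)) t‖ < δ}).Nonempty :=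
    ⟨t, fun i _ => rfl, by simpa using hδ⟩
  obtain ⟨s, hsV, hs1, hs2⟩ := (hU1d.inter_of_isOpen_left hU2d hU1o).inter_open_nonempty _ hVo hVne
  have hfs : (f : C(G, ℂ)) s = (f : C(G, ℂ)) t := hL s t hsV.1
  have hTs : ‖(T f : C(G, ℂ)) s - (T f : C(G, ℂ)) t‖ < δ := hsV.2
  set w : ℂ := (f : C(G, ℂ)) s with hw
  have hwn : ‖w‖ ≤ ‖f‖ := ContinuousMap.norm_coe_le_norm _ _
  -- choose n large
  have hpow : Tendsto (fun n : ℕ => (2 * (2 * (1/3)^n) : ℝ)) atTop (𝓝 0) := by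
    have := (tendsto_pow_atTop_nhds_zero_of_lt_one (by norm_num : (0:ℝ) ≤ 1/3) (by norm_num)).const_mul 4
    simp only [mul_zero] at this
    refine this.congr fun n => by ring
  have hev : ∀ᶠ n in atTop, (2 * (2 * (1/3)^n) : ℝ) < 1 - ‖f‖ :=
    hpow.eventually_lt_const (by linarith)
  obtain ⟨n, hn1, hn2, hn3, hn4⟩ :=
    ((hU1 s hs1).and ((hU2 s hs2).and (hev.and (eventually_ge_atTop L)))).exists
  rw [sub_zero] at hn2
  let F : X := f + (u - w) • trX s (hX n)
  have hFx : ∀ x, (F : C(G, ℂ)) x = (f : C(G, ℂ)) x + (u - w) * h n (x - s) := fun x => rfl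
  have hFs : (F : C(G, ℂ)) s = u := by
    rw [hFx, sub_self, h_zero, mul_one, ← hw]; ring
  have hdn := d_ge n
  have hFle : ‖F‖ ≤ 1 := by
    rw [Submodule.coe_norm, ContinuousMap.norm_le _ zero_le_one]
    intro x
    rw [hFx]
    obtain ⟨r, hr1, hr2, hr3, hr4⟩ := h_vals n (x - s)
    rw [hr1]
    by_cases hr : r = 0
    · rw [hr, Complex.ofReal_zero, mul_zero, add_zero]
      exact ((f : C(G, ℂ)).norm_coe_le_norm x).trans hf.le
    · have hx : (f : C(G, ℂ)) x = w := hL x s fun i hi => sub_eq_zero.mp (hr4 hr i (by omega))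
      rw [hx]
      have e1 : w + (u - w) * (r : ℂ) = ((1 - r : ℝ) : ℂ) * w + (r : ℂ) * u := by
        push_cast; ring
      rw [e1]
      refine (norm_add_le _ _).trans ?_
      rw [norm_mul, norm_mul, hu, mul_one, Complex.norm_real, Complex.norm_real, Real.norm_eq_abs,
        Real.norm_eq_abs, abs_of_nonneg (by linarith : 0 ≤ 1 - r)]
      rcases le_or_gt 0 r with h0 | h0
      · rw [abs_of_nonneg h0]
        nlinarith [norm_nonneg w]
      · rw [abs_of_neg h0]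
        nlinarith [norm_nonneg w]
  have hFn : ‖F‖ = 1 := by
    refine le_antisymm hFle ?_
    have := (F : C(G, ℂ)).norm_coe_le_norm s
    rw [hFs, hu] at this
    exact this
  have hvF := hv F s hFn (by rw [hFs, hu])
  rw [hFs] at hvF
  have hTF : (T F : C(G, ℂ)) s = (T f : C(G, ℂ)) s + ((u - w) * al (T1 T) (hX n) s +
      (starRingEnd ℂ) (u - w) * al (T2 T) (hX n) s) := by
    have e1 : T F = T f + (T1 T ((u - w) • trX s (hX n)) + T2 T ((u - w) • trX s (hX n))) := by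
      rw [← T_eq, ← map_add]
    rw [e1, (semi_T1 T).smul, (semi_T2 T).smul]
    rfl
  have key : ((starRingEnd ℂ) u * ((T f : C(G, ℂ)) t - l * (f : C(G, ℂ)) t)).re + l.re =
      ((starRingEnd ℂ) u * (T F : C(G, ℂ)) s).re +
      ((starRingEnd ℂ) u * (-((T f : C(G, ℂ)) s - (T f : C(G, ℂ)) t)
        - (u - w) * (al (T1 T) (hX n) s - l)
        - (starRingEnd ℂ) (u - w) * al (T2 T) (hX n) s)).re := by
    rw [← Complex.add_re, ← Complex.add_re, hTF, ← hfs]
    congr 1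
    have e2 : (starRingEnd ℂ) u * u = 1 := by
      rw [Complex.conj_mul', hu]; norm_num
    linear_combination (-l) * e2
  rw [key]
  refine (abs_add_le _ _).trans (add_le_add hvF ?_)
  refine (Complex.abs_re_le_norm _).trans ?_
  rw [norm_mul, RCLike.norm_conj, hu, one_mul]
  have huw : ‖u - w‖ ≤ 2 := by
    refine (norm_sub_le _ _).trans ?_
    rw [hu]; linarith
  calc ‖-((T f : C(G, ℂ)) s - (T f : C(G, ℂ)) t)
        - (u - w) * (al (T1 T) (hX n) s - l)
        - (starRingEnd ℂ) (u - w) * al (T2 T) (hX n) s‖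
      ≤ ‖(T f : C(G, ℂ)) s - (T f : C(G, ℂ)) t‖ + ‖u - w‖ * ‖al (T1 T) (hX n) s - l‖ +
        ‖u - w‖ * ‖al (T2 T) (hX n) s‖ := by
        refine (norm_sub_le _ _).trans (add_le_add ((norm_sub_le _ _).trans (add_le_add ?_ ?_)) ?_)
        · rw [norm_neg]
        · rw [norm_mul]
        · rw [norm_mul, RCLike.norm_conj]
    _ ≤ δ + 2 * (3 * δ) + 2 * (3 * δ) := by
        refine add_le_add (add_le_add hTs.le ?_) ?_
        · exact mul_le_mul huw hn1 (norm_nonneg _) (by norm_num)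
        · exact mul_le_mul huw hn2 (norm_nonneg _) (by norm_num)
    _ = ε := by rw [hδdef]; ring

end MPb2bd43
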