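import Pool.Agent.Lib_MP_b2bd43_an.Space

open MeasureTheory Filter Topology

namespace MPb2bd43

/-- Translation. -/
noncomputable def tr (t : G) (F : C(G, ℂ)) : C(G, ℂ) :=
  F.comp ⟨fun x => x - t, continuous_id.sub continuous_const⟩

lemma tr_apply (t : G) (F : C(G, ℂ)) (x : G) : tr t F x = F (x - t) := rfl

lemma tr_add (t : G) (F F' : C(G, ℂ)) : tr t (F + F') = tr t F + tr t F' := rfl

lemma tr_smul (t : G) (c : ℂ) (F : C(G, ℂ)) : tr t (c • F) = c • tr t F := rfl

lemma tr_zero (t : G) : tr t 0 = 0 := rfl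

lemma tr_ch (t : G) (γ : Γ) : tr t (ch γ) = (starRingEnd ℂ) (ch γ t) • ch γ := by
  ext x
  rw [tr_apply, sub_eq_add_neg, ch_add_apply, ch_neg_right, ContinuousMap.smul_apply, smul_eq_mul,
    mul_comm]

lemma norm_tr_le (t : G) (F : C(G, ℂ)) : ‖tr t F‖ ≤ ‖F‖ := by
  rw [ContinuousMap.norm_le _ (norm_nonneg _)]
  intro x
  exact F.norm_coe_le_norm _

lemma continuous_tr_left (F : C(G, ℂ)) : Continuous fun t => tr t F := by
  let Φ : C(G × G, ℂ) := ⟨fun q => F (q.2 - q.1), by fun_prop⟩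
  have : (fun t => tr t F) = fun t => Φ.curry t := by
    funext t; ext x; rfl
  rw [this]
  exact Φ.curry.continuous

lemma continuous_tr_right (t : G) : Continuous (tr t) := ContinuousMap.continuous_precomp _

lemma tr_mem_A {T : Set Γ} (t : G) {F : C(G, ℂ)} (hF : F ∈ A T) : tr t F ∈ A T := by
  induction hF using Submodule.span_induction with
  | mem x hx =>
    obtain ⟨γ, hγ, rfl⟩ := hx
    rw [tr_ch]
    exact Submodule.smul_mem _ _ (ch_mem_A hγ)
  | zero => rw [tr_zero]; exact Submodule.zero_mem _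
  | add x y _ _ hx hy => rw [tr_add]; exact Submodule.add_mem _ hx hy
  | smul c x _ hx => rw [tr_smul]; exact Submodule.smul_mem _ _ hx

lemma tr_mem_X (t : G) {F : C(G, ℂ)} (hF : F ∈ X) : tr t F ∈ X :=
  map_mem_closure (continuous_tr_right t) hF (fun _ h => tr_mem_A t h)

/-- Translation on `X`. -/
noncomputable def trX (t : G) (F : X) : X := ⟨tr t F, tr_mem_X t F.2⟩

lemma trX_add (t : G) (F F' : X) : trX t (F + F') = trX t F + trX t F' := rfl
lemma trX_smul (t : G) (c : ℂ) (F : X) : trX t (c • F) = c • trX t F := rfl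
lemma trX_sub (t : G) (F F' : X) : trX t (F - F') = trX t F - trX t F' := rfl

lemma continuous_trX_left (F : X) : Continuous fun t => trX t F :=
  Continuous.subtype_mk (continuous_tr_left F) _

/-- Functional of integration against a character. -/
lemma X_coeff {f : C(G, ℂ)} (hf : f ∈ X) {γ : Γ} (hγ : γ ∉ Lam) : ∫ t, f t * ch (-γ) t ∂μ = 0 := by
  let L : C(G, ℂ) →ₗ[ℂ] ℂ :=
    { toFun := fun f => ∫ t, f t * ch (-γ) t ∂μ
      map_add' := by
        intro f g
        rw [← integral_add]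
        · congr 1; funext t; rw [ContinuousMap.add_apply, add_mul]
        · exact integrable_cont (by fun_prop)
        · exact integrable_cont (by fun_prop)
      map_smul' := by
        intro c f
        simp only [ContinuousMap.smul_apply, smul_eq_mul, mul_assoc, RingHom.id_apply]
        rw [integral_const_mul] }
  have hL : ∀ f : C(G, ℂ), ‖L f‖ ≤ 1 * ‖f‖ := by
    intro f
    rw [one_mul]
    calc ‖L f‖ ≤ ∫ t, ‖f t * ch (-γ) t‖ ∂μ := norm_integral_le_integral_norm _
      _ ≤ ∫ t, ‖f‖ ∂μ := by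
        refine integral_mono_of_nonneg (Eventually.of_forall fun _ => norm_nonneg _)
          (integrable_const _) (Eventually.of_forall fun t => ?_)
        simp only
        rw [norm_mul, norm_ch, mul_one]
        exact f.norm_coe_le_norm t
      _ = ‖f‖ := by simp
  let L' := L.mkContinuous 1 hL
  have h1 : X ≤ LinearMap.ker L'.toLinearMap := by
    refine Submodule.topologicalClosure_minimal _ ?_ L'.isClosed_ker
    refine Submodule.span_le.mpr ?_
    rintro _ ⟨κ, hκ, rfl⟩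
    show ∫ t, ch κ t * ch (-γ) t ∂μ = 0
    have h2 : (fun t => ch κ t * ch (-γ) t) = fun t => ch (κ + (-γ)) t := by
      funext t; rw [ch_add]; rfl
    rw [h2]
    apply integral_ch
    intro h3
    apply hγ
    rw [← sub_eq_add_neg, sub_eq_zero] at h3
    rw [← h3]; exact hκ
  exact h1 hf

/-- Semilinear operators. -/
structure IsSemi (S : X →L[ℝ] X) (σ : ℂ → ℂ) : Prop where
  smul : ∀ (c : ℂ) (f : X), S (c • f) = σ c • S f
  norm : ∀ c, ‖σ c‖ = ‖c‖
  surj : Function.Surjective σ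

/-- The diagonal function of an operator along the translates of a function. -/
noncomputable def al (T : X →L[ℝ] X) (F : X) (t : G) : ℂ := (T (trX t F) : C(G, ℂ)) t

lemma continuous_al (T : X →L[ℝ] X) (F : X) : Continuous (al T F) := by
  have h1 : Continuous fun t => ((T (trX t F) : X) : C(G, ℂ)) :=
    continuous_subtype_val.comp (T.continuous.comp (continuous_trX_left F))
  exact h1.eval continuous_id

lemma al_add (T : X →L[ℝ] X) (F F' : X) (t : G) : al T (F + F') t = al T F t + al T F' t := by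
  simp [al, trX_add]

lemma al_sub (T : X →L[ℝ] X) (F F' : X) (t : G) : al T (F - F') t = al T F t - al T F' t := by
  simp [al, trX_sub]

lemma al_smul {T : X →L[ℝ] X} {σ : ℂ → ℂ} (hT : IsSemi T σ) (c : ℂ) (F : X) (t : G) :
    al T (c • F) t = σ c * al T F t := by
  simp [al, trX_smul, hT.smul]

lemma al_zero (T : X →L[ℝ] X) (t : G) : al T 0 t = 0 := by
  have : trX t 0 = 0 := rfl
  simp [al, this]

lemma al_sum (T : X →L[ℝ] X) (F : ℕ → X) (N : ℕ) (t : G) :
    al T (∑ n ∈ Finset.range N, F n) t = ∑ n ∈ Finset.range N, al T (F n) t := by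
  induction N with
  | zero => simp [al_zero]
  | succ k ih => rw [Finset.sum_range_succ, al_add, ih, Finset.sum_range_succ]

lemma al_ch {T : X →L[ℝ] X} {σ : ℂ → ℂ} (hT : IsSemi T σ) {γ : Γ} (hγ : ch γ ∈ X) (t : G) :
    al T ⟨ch γ, hγ⟩ t = σ ((starRingEnd ℂ) (ch γ t)) * (T ⟨ch γ, hγ⟩ : C(G, ℂ)) t := by
  have : trX t ⟨ch γ, hγ⟩ = (starRingEnd ℂ) (ch γ t) • (⟨ch γ, hγ⟩ : X) := by
    apply Subtype.ext; exact tr_ch t γ
  rw [al, this, hT.smul]
  rfl

lemma al_coeff {T : X →L[ℝ] X} {σ : ℂ → ℂ} (hT : IsSemi T σ) {W : Set Γ} {κ : Γ} (hW : W ⊆ Lam)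
    (H : ∀ γ ∈ W, ∀ f ∈ X, ∫ t, σ ((starRingEnd ℂ) (ch γ t)) * f t * ch κ t ∂μ = 0)
    {F : C(G, ℂ)} (hF : F ∈ A W) : ∀ hF' : F ∈ X, ∫ t, al T ⟨F, hF'⟩ t * ch κ t ∂μ = 0 := by
  have key : ∃ hF' : F ∈ X, ∫ t, al T ⟨F, hF'⟩ t * ch κ t ∂μ = 0 := by
    induction hF using Submodule.span_induction with
    | mem x hx =>
      obtain ⟨γ, hγ, rfl⟩ := hx
      refine ⟨A_le_X (ch_mem_A (hW hγ)), ?_⟩
      simp only [al_ch hT]
      exact H γ hγ _ (T _).2
    | zero =>
      refine ⟨Submodule.zero_mem _, ?_⟩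
      have : (⟨0, Submodule.zero_mem _⟩ : X) = 0 := rfl
      simp [this, al_zero]
    | add x y _ _ hx hy =>
      obtain ⟨hx1, hx2⟩ := hx
      obtain ⟨hy1, hy2⟩ := hy
      refine ⟨Submodule.add_mem _ hx1 hy1, ?_⟩
      have h1 : (⟨x + y, Submodule.add_mem _ hx1 hy1⟩ : X) = ⟨x, hx1⟩ + ⟨y, hy1⟩ := rfl
      rw [h1]
      simp only [al_add, add_mul]
      rw [integral_add, hx2, hy2, add_zero]
      · exact integrable_cont ((continuous_al T _).mul (ch κ).continuous)
      · exact integrable_cont ((continuous_al T _).mul (ch κ).continuous)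
    | smul c x _ hx =>
      obtain ⟨hx1, hx2⟩ := hx
      refine ⟨Submodule.smul_mem _ _ hx1, ?_⟩
      have h1 : (⟨c • x, Submodule.smul_mem _ _ hx1⟩ : X) = c • ⟨x, hx1⟩ := rfl
      rw [h1]
      simp only [al_smul hT, mul_assoc]
      rw [integral_const_mul, hx2, mul_zero]
  intro _
  exact key.2

lemma exists_unimodular (z : ℂ) : ∃ u : ℂ, ‖u‖ = 1 ∧ u * z = (‖z‖ : ℂ) := by
  by_cases h : z = 0
  · exact ⟨1, by simp, by simp [h]⟩
  · have h1 : (‖z‖ : ℂ) ≠ 0 := by exact_mod_cast (norm_ne_zero_iff.mpr h)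
    refine ⟨(starRingEnd ℂ) z / ‖z‖, ?_, ?_⟩
    · rw [norm_div, RCLike.norm_conj, Complex.norm_real, norm_norm,
        div_self (norm_ne_zero_iff.mpr h)]
    · rw [div_mul_eq_mul_div, div_eq_iff h1, Complex.conj_mul']
      ring

lemma BS_al {T : X →L[ℝ] X} {σ : ℂ → ℂ} (hT : IsSemi T σ) {g : ℕ → X}
    (hg : BS (fun n x => ‖(g n : C(G, ℂ)) x‖)) : BS (fun n t => ‖al T (g n) t‖) := by
  obtain ⟨C, hC⟩ := hg
  refine ⟨‖T‖ * C, fun t N => ?_⟩
  choose u hu1 hu2 using fun n => exists_unimodular (al T (g n) t)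
  choose c hc using fun n => hT.surj (u n)
  have hc1 : ∀ n, ‖c n‖ = 1 := fun n => by rw [← hT.norm, hc, hu1]
  have h1 : ((∑ n ∈ Finset.range N, ‖al T (g n) t‖ : ℝ) : ℂ) =
      al T (∑ n ∈ Finset.range N, c n • g n) t := by
    rw [al_sum]
    push_cast
    refine Finset.sum_congr rfl fun n _ => ?_
    rw [al_smul hT, hc, hu2]
  have h2 : (∑ n ∈ Finset.range N, ‖al T (g n) t‖ : ℝ) =
      ‖al T (∑ n ∈ Finset.range N, c n • g n) t‖ := by
    rw [← h1, Complex.norm_real, Real.norm_eq_abs, abs_of_nonneg]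
    exact Finset.sum_nonneg fun _ _ => norm_nonneg _
  rw [h2]
  have h3 : ‖(∑ n ∈ Finset.range N, c n • g n : X)‖ ≤ C := by
    rw [Submodule.coe_norm, ContinuousMap.norm_le _ ((by simpa using hC 0 0 : (0:ℝ) ≤ C))]
    intro x
    have h4 : (((∑ n ∈ Finset.range N, c n • g n : X) : C(G, ℂ))) x =
        ∑ n ∈ Finset.range N, c n * (g n : C(G, ℂ)) x := by
      rw [Submodule.coe_sum, ContinuousMap.coe_sum, Finset.sum_apply]
      rfl
    rw [h4]
    refine (norm_sum_le _ _).trans ?_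
    simp only [norm_mul, hc1, one_mul]
    exact hC x N
  have h5 : ‖trX t (∑ n ∈ Finset.range N, c n • g n)‖ ≤ C := (norm_tr_le _ _).trans h3
  calc ‖al T (∑ n ∈ Finset.range N, c n • g n) t‖
      ≤ ‖(T (trX t (∑ n ∈ Finset.range N, c n • g n)) : C(G, ℂ))‖ :=
        ContinuousMap.norm_coe_le_norm _ _
    _ ≤ ‖T‖ * ‖trX t (∑ n ∈ Finset.range N, c n • g n)‖ := T.le_opNorm _
    _ ≤ ‖T‖ * C := mul_le_mul_of_nonneg_left h5 T.opNorm_nonneg

lemma summable_coeff {c : ℕ → G → ℂ} (hc : ∀ n, Continuous (c n)) (hb : BS (fun n t => ‖c n t‖))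
    (κ : Γ) : Summable fun n => ‖∫ t, c n t * ch κ t ∂μ‖ := by
  obtain ⟨C, hC⟩ := hb
  refine summable_of_sum_range_le (c := C) (fun _ => norm_nonneg _) fun N => ?_
  have h0 : ∀ n, Integrable (fun t => ‖c n t‖) μ := fun n => (integrable_cont (hc n)).norm
  calc ∑ n ∈ Finset.range N, ‖∫ t, c n t * ch κ t ∂μ‖
      ≤ ∑ n ∈ Finset.range N, ∫ t, ‖c n t‖ ∂μ := by
        refine Finset.sum_le_sum fun n _ => ?_
        refine (norm_integral_le_integral_norm _).trans ?_
        simp only [norm_mul, norm_ch, mul_one]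
        exact le_rfl
    _ = ∫ t, ∑ n ∈ Finset.range N, ‖c n t‖ ∂μ := (integral_finsetSum _ fun n _ => h0 n).symm
    _ ≤ ∫ _t, C ∂μ := integral_mono (integrable_finsetSum _ fun n _ => h0 n)
        (integrable_const _) (fun t => hC t N)
    _ = C := by simp

/-- the peak functions in `X`. -/
noncomputable def hX (n : ℕ) : X := ⟨h n, A_le_X (h_mem n)⟩
/-- the modified peak functions in `X`. -/
noncomputable def KX (n : ℕ) : X := ⟨K n, A_le_X (K_mem_Lam n)⟩

lemma BS_al_h {T : X →L[ℝ] X} {σ : ℂ → ℂ} (hT : IsSemi T σ) :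
    BS (fun n t => ‖al T (hX n) t - al T (hX (n+1)) t‖) := by
  have h1 : BS (fun n t => ‖al T (hX n - hX (n+1)) t‖) := BS_al hT BS_h
  simpa only [al_sub] using h1

lemma BS_al_K {T : X →L[ℝ] X} {σ : ℂ → ℂ} (hT : IsSemi T σ) :
    BS (fun n t => ‖al T (KX n) t - al T (hX n) t‖) := by
  have h1 : BS (fun n t => ‖al T (KX n - hX n) t‖) := BS_al hT BS_K
  simpa only [al_sub] using h1

lemma cauchy_al {T : X →L[ℝ] X} {σ : ℂ → ℂ} (hT : IsSemi T σ) (t : G) :
    CauchySeq (fun n => al T (hX n) t) := by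
  obtain ⟨C, hC⟩ := BS_al_h hT
  refine cauchySeq_of_summable_dist ?_
  refine summable_of_sum_range_le (c := C) (fun _ => dist_nonneg) fun N => ?_
  simpa only [dist_eq_norm] using hC t N

lemma cauchy_coeff {T : X →L[ℝ] X} {σ : ℂ → ℂ} (hT : IsSemi T σ) (κ : Γ) :
    CauchySeq (fun n => ∫ t, al T (hX n) t * ch κ t ∂μ) := by
  refine cauchySeq_of_summable_dist ?_
  have h1 := summable_coeff (c := fun n t => al T (hX n) t - al T (hX (n+1)) t)
    (fun n => (continuous_al T _).sub (continuous_al T _)) (BS_al_h hT) κ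
  refine h1.congr fun n => ?_
  rw [dist_eq_norm, ← integral_sub]
  · congr 2
    funext t
    ring
  · exact integrable_cont ((continuous_al T _).mul (ch κ).continuous)
  · exact integrable_cont ((continuous_al T _).mul (ch κ).continuous)

lemma tendsto_KX_sub {T : X →L[ℝ] X} {σ : ℂ → ℂ} (hT : IsSemi T σ) (κ : Γ) :
    Tendsto (fun n => (∫ t, al T (KX n) t * ch κ t ∂μ) - ∫ t, al T (hX n) t * ch κ t ∂μ)
      atTop (𝓝 0) := by
  have h1 := summable_coeff (c := fun n t => al T (KX n) t - al T (hX n) t)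
    (fun n => (continuous_al T _).sub (continuous_al T _)) (BS_al_K hT) κ
  have h2 := h1.tendsto_atTop_zero
  rw [tendsto_zero_iff_norm_tendsto_zero]
  refine h2.congr fun n => ?_
  rw [← integral_sub]
  · congr 2
    funext t
    ring
  · exact integrable_cont ((continuous_al T _).mul (ch κ).continuous)
  · exact integrable_cont ((continuous_al T _).mul (ch κ).continuous)

lemma tendsto_coeff_zero {T : X →L[ℝ] X} {σ : ℂ → ℂ} (hT : IsSemi T σ) {κ : Γ}
    (H : ∃ᶠ n in atTop, ∫ t, al T (KX n) t * ch κ t ∂μ = 0) :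
    Tendsto (fun n => ∫ t, al T (hX n) t * ch κ t ∂μ) atTop (𝓝 0) := by
  obtain ⟨l, hl⟩ := cauchySeq_tendsto_of_complete (cauchy_coeff hT κ)
  have h1 : Tendsto (fun n => ∫ t, al T (KX n) t * ch κ t ∂μ) atTop (𝓝 l) := by
    have := (tendsto_KX_sub hT κ).add hl
    simpa using this
  have h2 : l = 0 := by
    by_contra hne
    have h3 : ∀ᶠ n in atTop, ∫ t, al T (KX n) t * ch κ t ∂μ ≠ 0 :=
      h1.eventually_ne hne
    exact H (h3.mono fun n hn => hn)
  rw [h2] at hl
  exact hl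

end MPb2bd43
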