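import Pool.Agent.Lib_MP_b2bd43_an.Char

open MeasureTheory

namespace MPb2bd43

/-- The special indices. -/
def d (n : ℕ) : ℕ := (n+2)^2
/-- The enumeration of indices hitting each index infinitely often. -/
def im (n : ℕ) : ℕ := (Nat.unpair n).1

lemma d_strictMono : StrictMono d := by
  intro a b h
  unfold d
  exact Nat.pow_lt_pow_left (by omega) (by norm_num)

lemma d_inj {a b : ℕ} (h : d a = d b) : a = b := d_strictMono.injective h

lemma d_ge (n : ℕ) : n + 4 ≤ d n := by unfold d; nlinarith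

lemma d_succ (n : ℕ) : d (n+1) = d n + 1 + (2 * n + 4) := by unfold d; ring

lemma im_lt (n : ℕ) : im n < d n - 1 := by
  have := Nat.unpair_left_le n
  have := d_ge n
  unfold im; omega

/-- The spectrum. -/
def Lam : Set Γ := {γ | γ ≠ 0 ∧ ∀ n, γ (d n) ≠ 0 → (∀ j, d n < j → γ j = 0) →
  γ (d n) = 1 ∧ γ (d n - 1) = γ (im n)}

/-- The space. -/
noncomputable def X : Submodule ℂ C(G, ℂ) := (A Lam).topologicalClosure

instance : CompleteSpace X :=
  IsClosed.completeSpace_coe (hs := Submodule.isClosed_topologicalClosure _)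

lemma A_le_X : A Lam ≤ X := Submodule.le_topologicalClosure _

lemma topAt_sub_Lam {n k : ℕ} (h1 : d n + 1 ≤ k) (h2 : k < d (n+1)) : topAt k ⊆ Lam := by
  rintro γ ⟨hk1, hk2⟩
  refine ⟨?_, ?_⟩
  · rintro rfl; simp at hk1
  · intro n' h3 h4
    exfalso
    have h5 : d n' ≤ k := by
      by_contra h
      exact h3 (hk2 _ (by omega))
    have h6 : k ≤ d n' := by
      by_contra h
      exact hk1 (h4 _ (by omega))
    have h7 : d n' = k := le_antisymm h5 h6
    have h8 : n < n' := d_strictMono.lt_iff_lt.mp (by omega)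
    have h9 : n' < n + 1 := d_strictMono.lt_iff_lt.mp (by omega)
    omega

/-- The peak functions. -/
noncomputable def h (n : ℕ) : C(G, ℂ) :=
  (1 - (1/3 : ℂ)^(2*n+4))⁻¹ • (P (d (n+1)) - ((1/3 : ℂ)^(2*n+4)) • P (d n + 1))

lemma h_mem (n : ℕ) : h n ∈ A Lam := by
  refine Submodule.smul_mem _ _ ?_
  have h1 : d n + 1 ≤ d (n+1) := by rw [d_succ]; omega
  have h2 := peak_mem h1
  have h3 : d (n+1) - (d n + 1) = 2*n+4 := by rw [d_succ]; omega
  rw [h3] at h2
  refine A_mono ?_ h2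
  rintro γ ⟨k, hk1, hk2, hk3⟩
  exact topAt_sub_Lam hk1 hk2 hk3

/-- The spectrum of `K n`. -/
def S (n : ℕ) : Set Γ := {γ | γ (d n) = 1 ∧ (∀ j, d n < j → γ j = 0) ∧ γ (d n - 1) = γ (im n)}

/-- Auxiliary subgroup. -/
def R (n : ℕ) : Set Γ := {γ | (∀ j, d n ≤ j → γ j = 0) ∧ γ (d n - 1) = γ (im n)}

/-- The modified peak functions. -/
noncomputable def K (n : ℕ) : C(G, ℂ) :=
  ch (Finsupp.single (d n) 1) *
    ((∏ i ∈ (Finset.range (d n - 1)).erase (im n), E (Finsupp.single i 1)) *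
      E (Finsupp.single (im n) 1 + Finsupp.single (d n - 1) 1))

lemma R_zero (n : ℕ) : (0 : Γ) ∈ R n := ⟨by intro j _; simp, by simp⟩

lemma R_add {n : ℕ} {γ κ : Γ} (h1 : γ ∈ R n) (h2 : κ ∈ R n) : γ + κ ∈ R n := by
  refine ⟨fun j hj => ?_, ?_⟩
  · rw [Finsupp.add_apply, h1.1 j hj, h2.1 j hj, add_zero]
  · rw [Finsupp.add_apply, Finsupp.add_apply, h1.2, h2.2]

lemma E_mem_R {n : ℕ} {γ : Γ} (h1 : γ ∈ R n) : E γ ∈ A (R n) :=
  E_mem (R_zero n) h1 (R_add h1 h1)

lemma A_R_mul {n : ℕ} {f g : C(G, ℂ)} (hf : f ∈ A (R n)) (hg : g ∈ A (R n)) : f * g ∈ A (R n) :=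
  A_mul (fun _ hs _ ht => R_add hs ht) hf hg

lemma K_mem (n : ℕ) : K n ∈ A (S n) := by
  have hlt := im_lt n
  have hd := d_ge n
  refine A_mul (S := {Finsupp.single (d n) 1}) (T := R n) ?_ (ch_mem_A rfl) ?_
  · rintro s hs t ⟨ht1, ht2⟩
    have hs' : s = Finsupp.single (d n) 1 := hs
    subst hs'
    refine ⟨?_, ?_, ?_⟩
    · simp [ht1 (d n) le_rfl]
    · intro j hj
      rw [Finsupp.add_apply, ht1 j hj.le, Finsupp.single_apply, if_neg (by omega), add_zero]
    · rw [Finsupp.add_apply, Finsupp.add_apply, Finsupp.single_apply, if_neg (by omega),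
        Finsupp.single_apply, if_neg (by omega), ht2]
  · refine A_R_mul ?_ ?_
    · refine Finset.prod_induction _ (fun f => f ∈ A (R n)) (fun f g => A_R_mul) ?_ ?_
      · rw [← ch_zero]; exact ch_mem_A (R_zero n)
      · intro i hi
        rw [Finset.mem_erase, Finset.mem_range] at hi
        refine E_mem_R ⟨?_, ?_⟩
        · intro j hj
          rw [Finsupp.single_apply, if_neg (by omega)]
        · rw [Finsupp.single_apply, if_neg (by omega), Finsupp.single_apply, if_neg hi.1]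
    · refine E_mem_R ⟨?_, ?_⟩
      · intro j hj
        rw [Finsupp.add_apply, Finsupp.single_apply, if_neg (by omega), Finsupp.single_apply,
          if_neg (by omega), add_zero]
      · rw [Finsupp.add_apply, Finsupp.add_apply, Finsupp.single_apply, if_neg (by omega),
          Finsupp.single_apply, if_pos rfl, Finsupp.single_apply, if_pos rfl, Finsupp.single_apply,
          if_neg (by omega), zero_add, add_zero]

lemma S_sub_Lam (n : ℕ) : S n ⊆ Lam := by
  rintro γ ⟨h1, h2, h3⟩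
  have h0 : γ (d n) ≠ 0 := by rw [h1]; decide
  refine ⟨?_, ?_⟩
  · rintro rfl; simp at h1
  · intro n' h4 h5
    have h6 : d n' ≤ d n := by
      by_contra h
      exact h4 (h2 _ (by omega))
    have h7 : d n ≤ d n' := by
      by_contra h
      exact h0 (h5 _ (by omega))
    have h8 : n' = n := d_inj (le_antisymm h6 h7)
    subst h8
    exact ⟨h1, h3⟩

lemma K_mem_Lam (n : ℕ) : K n ∈ A Lam := A_mono (S_sub_Lam n) (K_mem n)

/-- shifts of `S n` leave the spectrum. -/
lemma S_add_notMem {n : ℕ} {κ γ : Γ} (h1 : κ (im n) ≠ 0) (h2 : ∀ j, d n - 1 ≤ j → κ j = 0)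
    (hγ : γ ∈ S n) : γ + κ ∉ Lam := by
  rintro ⟨_, h4⟩
  obtain ⟨g1, g2, g3⟩ := hγ
  have h5 := h4 n ?_ ?_
  · rw [Finsupp.add_apply, Finsupp.add_apply, Finsupp.add_apply, h2 (d n - 1) le_rfl, g3] at h5
    apply h1
    have := h5.2
    rw [add_zero] at this
    exact add_left_cancel (a := γ (im n)) (by rw [add_zero]; exact this.symm)
  · rw [Finsupp.add_apply, g1, h2 _ (by omega)]; decide
  · intro j hj
    rw [Finsupp.add_apply, g2 j hj, h2 _ (by omega), add_zero]

lemma sub_S_notMem {n : ℕ} {κ γ : Γ} (h2 : ∀ j, d n ≤ j → κ j = 0)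
    (hγ : γ ∈ S n) : κ - γ ∉ Lam := by
  rintro ⟨_, h4⟩
  obtain ⟨g1, g2, g3⟩ := hγ
  have h5 := h4 n ?_ ?_
  · rw [Finsupp.sub_apply, h2 _ le_rfl, g1] at h5
    exact absurd h5.1 (by decide)
  · rw [Finsupp.sub_apply, h2 _ le_rfl, g1]; decide
  · intro j hj
    rw [Finsupp.sub_apply, g2 j hj, h2 _ (by omega), sub_zero]

/-- Bounded sums. -/
def BS (f : ℕ → G → ℝ) : Prop := ∃ C, ∀ x N, ∑ n ∈ Finset.range N, f n x ≤ C

lemma BS.add {f g : ℕ → G → ℝ} (hf : BS f) (hg : BS g) : BS (fun n x => f n x + g n x) := by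
  obtain ⟨C, hC⟩ := hf
  obtain ⟨D, hD⟩ := hg
  refine ⟨C + D, fun x N => ?_⟩
  rw [Finset.sum_add_distrib]
  exact add_le_add (hC x N) (hD x N)

lemma BS.mono {f g : ℕ → G → ℝ} (hg : BS g) (h : ∀ n x, f n x ≤ g n x) : BS f := by
  obtain ⟨D, hD⟩ := hg
  exact ⟨D, fun x N => (Finset.sum_le_sum fun n _ => h n x).trans (hD x N)⟩

lemma BS_tel (a : ℕ → G → ℝ) (h0 : ∀ n x, 0 ≤ a n x) (h1 : ∀ n x, a n x ≤ 1) :
    BS (fun n x => a n x - a (n+1) x) := by
  refine ⟨1, fun x N => ?_⟩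
  rw [Finset.sum_range_sub' (fun n => a n x)]
  linarith [h0 N x, h1 0 x]

lemma BS_geom (c : ℝ) (hc : 0 ≤ c) : BS (fun n _ => c * (1/3)^n) := by
  refine ⟨c * (3/2), fun x N => ?_⟩
  rw [← Finset.mul_sum]
  refine mul_le_mul_of_nonneg_left ?_ hc
  rw [geom_sum_eq (by norm_num)]
  have : (0 : ℝ) ≤ (1/3)^N := by positivity
  rw [div_le_iff_of_neg (by norm_num)]
  linarith

open Classical in
lemma BS_excl (p : ℕ → G → Prop) (hp : ∀ x m n, p m x → p n x → m < n → False) :
    BS (fun n x => if p n x then 1 else 0) := by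
  refine ⟨1, fun x N => ?_⟩
  rw [Finset.sum_boole]
  have : (Finset.filter (fun n => p n x) (Finset.range N)).card ≤ 1 := by
    rw [Finset.card_le_one]
    intro a ha b hb
    rw [Finset.mem_filter] at ha hb
    rcases lt_trichotomy a b with h | h | h
    · exact (hp x a b ha.2 hb.2 h).elim
    · exact h
    · exact (hp x b a hb.2 ha.2 h).elim
  exact_mod_cast this

open Classical in
/-- Real indicator. -/
noncomputable def p (M : ℕ) (x : G) : ℝ := if ∀ i < M, x i = 0 then 1 else 0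

lemma P_eq_p (M : ℕ) (x : G) : P M x = (p M x : ℂ) := by
  rw [P_apply, p]; split_ifs <;> simp

lemma p_nonneg (M : ℕ) (x : G) : 0 ≤ p M x := by
  rw [p]; split_ifs <;> norm_num

lemma p_le_one (M : ℕ) (x : G) : p M x ≤ 1 := by
  rw [p]; split_ifs <;> norm_num

lemma p_anti {M N : ℕ} (h : M ≤ N) (x : G) : p N x ≤ p M x := by
  rw [p, p]
  split_ifs with h1 h2 h2
  · exact le_rfl
  · exact absurd (fun i hi => h1 i (by omega)) h2
  · norm_num
  · exact le_rfl

lemma eps_pos (n : ℕ) : (0 : ℝ) < (1/3)^(2*n+4) := by positivity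

lemma eps_le (n : ℕ) : ((1/3)^(2*n+4) : ℝ) ≤ 1/3 := by
  calc ((1/3)^(2*n+4) : ℝ) ≤ (1/3)^1 := pow_le_pow_of_le_one (by norm_num) (by norm_num) (by omega)
    _ = 1/3 := by norm_num

lemma eps_le' (n : ℕ) : ((1/3)^(2*n+4) : ℝ) ≤ (1/3)^n :=
  pow_le_pow_of_le_one (by norm_num) (by norm_num) (by omega)

lemma h_apply (n : ℕ) (x : G) :
    h n x = (((1 - (1/3)^(2*n+4))⁻¹ * (p (d (n+1)) x - (1/3)^(2*n+4) * p (d n + 1) x) : ℝ) : ℂ) := by
  rw [h]
  simp only [ContinuousMap.smul_apply, ContinuousMap.sub_apply, P_eq_p, smul_eq_mul]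
  push_cast
  ring

lemma h_sub_P (n : ℕ) (x : G) : ‖h n x - P (d (n+1)) x‖ ≤ 2 * (1/3)^n := by
  rw [h_apply, P_eq_p, ← Complex.ofReal_sub, Complex.norm_real, Real.norm_eq_abs]
  have h1 := eps_pos n
  have h2 := eps_le n
  have h3 := eps_le' n
  set e : ℝ := (1/3)^(2*n+4) with he
  have h4 : (1 - e)⁻¹ * (p (d (n+1)) x - e * p (d n + 1) x) - p (d (n+1)) x =
      (1 - e)⁻¹ * e * (p (d (n+1)) x - p (d n + 1) x) := by
    have : (1 - e) ≠ 0 := by linarith
    field_simp
    ring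
  rw [h4, abs_mul]
  have h5 : |p (d (n+1)) x - p (d n + 1) x| ≤ 1 := by
    rw [abs_le]
    constructor <;> linarith [p_nonneg (d (n+1)) x, p_le_one (d (n+1)) x, p_nonneg (d n + 1) x,
      p_le_one (d n + 1) x]
  have h6 : |(1 - e)⁻¹ * e| ≤ 2 * (1/3)^n := by
    rw [abs_of_nonneg (mul_nonneg (inv_nonneg.mpr (by linarith)) h1.le)]
    have : (1 - e)⁻¹ ≤ 2 := by
      rw [inv_le_comm₀ (by linarith) (by norm_num)]
      linarith
    exact mul_le_mul this h3 h1.le (by norm_num)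
  calc _ ≤ 2 * (1/3)^n * 1 := mul_le_mul h6 h5 (abs_nonneg _) (by positivity)
    _ = _ := mul_one _

lemma BS_h : BS (fun n x => ‖h n x - h (n+1) x‖) := by
  have h1 : BS (fun n x => p (d (n+1)) x - p (d (n+1+1)) x) :=
    BS_tel (fun n x => p (d (n+1)) x) (fun n x => p_nonneg _ x) (fun n x => p_le_one _ x)
  refine ((BS_geom 4 (by norm_num)).add h1).mono ?_
  intro n x
  have h2 := h_sub_P n x
  have h3 := h_sub_P (n+1) x
  have h4 : ‖P (d (n+1)) x - P (d (n+1+1)) x‖ = p (d (n+1)) x - p (d (n+1+1)) x := by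
    rw [P_eq_p, P_eq_p, ← Complex.ofReal_sub, Complex.norm_real, Real.norm_eq_abs, abs_of_nonneg]
    have := p_anti (d_strictMono.monotone (Nat.le_succ (n+1))) x
    linarith
  have h5 : h n x - h (n+1) x = (h n x - P (d (n+1)) x) + (P (d (n+1)) x - P (d (n+1+1)) x)
      - (h (n+1) x - P (d (n+1+1)) x) := by ring
  rw [h5]
  have h6 : (2 * (1/3)^(n+1) : ℝ) ≤ 2 * (1/3)^n := by
    rw [pow_succ]
    have : (0 : ℝ) ≤ (1/3)^n := by positivity
    linarith
  calc _ ≤ ‖h n x - P (d (n+1)) x‖ + ‖P (d (n+1)) x - P (d (n+1+1)) x‖ +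
        ‖h (n+1) x - P (d (n+1+1)) x‖ :=
        (norm_sub_le _ _).trans (add_le_add (norm_add_le _ _) le_rfl)
    _ ≤ _ := by rw [h4]; linarith

open Classical in
lemma K_apply (n : ℕ) (x : G) : K n x = ZMod.stdAddChar (x (d n)) *
    ((if ∀ i < d n - 1, i ≠ im n → x i = 0 then 1 else 0) *
      (if x (im n) + x (d n - 1) = 0 then 1 else 0)) := by
  rw [K]
  simp only [ContinuousMap.mul_apply, ContinuousMap.coe_prod, Finset.prod_apply, E_apply, pr_single,
    one_mul, pr_add_left, ch_apply]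
  rw [Finset.prod_ite_zero]
  congr 2
  simp only [Finset.mem_erase, Finset.mem_range, Finset.prod_const_one]
  congr 1
  apply propext
  constructor
  · intro h i h1 h2; exact h i ⟨h2, h1⟩
  · intro h i h1; exact h i h1.2 h1.1

/-- exceptional event -/
def exc (n : ℕ) (x : G) : Prop :=
  x (im n) ≠ 0 ∧ x (d n - 1) ≠ 0 ∧ ∀ i < d n - 1, i ≠ im n → x i = 0

lemma exc_excl (x : G) (m n : ℕ) (hm : exc m x) (hn : exc n x) (hmn : m < n) : False := by
  obtain ⟨a1, a2, -⟩ := hm
  obtain ⟨-, -, b3⟩ := hn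
  have h1 := im_lt m
  have h2 : d m < d n := d_strictMono hmn
  have h3 := d_ge m
  have h4 : im m = im n := by
    by_contra hne
    exact a1 (b3 _ (by omega) hne)
  have h5 : d m - 1 = im n := by
    by_contra hne
    exact a2 (b3 _ (by omega) hne)
  omega

open Classical in
lemma K_sub_P (n : ℕ) (x : G) : ‖K n x - P (d n + 1) x‖ ≤
    (p (d n) x - p (d n + 1) x) + (if exc n x then 1 else 0) := by
  have hd := d_ge n
  have hnn : 0 ≤ p (d n) x - p (d n + 1) x := by
    have := p_anti (Nat.le_succ (d n)) x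
    linarith
  have hnn2 : (0 : ℝ) ≤ (if exc n x then 1 else 0) := by split_ifs <;> norm_num
  by_cases hx : ∀ i < d n + 1, x i = 0
  · have h1 : K n x = 1 := by
      rw [K_apply, hx _ (by omega), hx _ (by have := im_lt n; omega), hx _ (by omega), if_pos, if_pos]
      · simp
      · simp
      · intro i hi _; exact hx i (by omega)
    rw [h1, P_apply, if_pos hx, sub_self, norm_zero]
    linarith
  · rw [P_apply, if_neg hx, sub_zero, K_apply, norm_mul, AddChar.norm_apply, one_mul]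
    by_cases c1 : ∀ i < d n - 1, i ≠ im n → x i = 0
    · by_cases c2 : x (im n) + x (d n - 1) = 0
      · rw [if_pos c1, if_pos c2, one_mul, norm_one]
        by_cases c3 : x (im n) = 0
        · have c4 : x (d n - 1) = 0 := by rw [c3, zero_add] at c2; exact c2
          have c5 : ∀ i < d n, x i = 0 := by
            intro i hi
            by_cases e1 : i = d n - 1
            · rw [e1]; exact c4
            · by_cases e2 : i = im n
              · rw [e2]; exact c3
              · exact c1 i (by omega) e2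
          have : p (d n) x - p (d n + 1) x = 1 := by
            rw [p, p, if_pos c5, if_neg hx]; norm_num
          linarith
        · have c4 : x (d n - 1) ≠ 0 := by
            intro h; rw [h, add_zero] at c2; exact c3 c2
          rw [if_pos (show exc n x from ⟨c3, c4, c1⟩)]
          linarith
      · rw [if_neg c2, mul_zero, norm_zero]; linarith
    · rw [if_neg c1, zero_mul, norm_zero]; linarith

lemma BS_K : BS (fun n x => ‖K n x - h n x‖) := by
  classical
  have t1 : BS (fun n x => p (d n) x - p (d (n+1)) x) :=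
    BS_tel (fun n x => p (d n) x) (fun n x => p_nonneg _ x) (fun n x => p_le_one _ x)
  have t2 : BS (fun n x => p (d n + 1) x - p (d (n+1) + 1) x) :=
    BS_tel (fun n x => p (d n + 1) x) (fun n x => p_nonneg _ x) (fun n x => p_le_one _ x)
  refine ((((BS_geom 2 (by norm_num)).add t1).add t2).add (BS_excl exc exc_excl)).mono ?_
  intro n x
  have h1 := K_sub_P n x
  have h2 := h_sub_P n x
  have h3 : ‖P (d n + 1) x - P (d (n+1)) x‖ = p (d n + 1) x - p (d (n+1)) x := by
    rw [P_eq_p, P_eq_p, ← Complex.ofReal_sub, Complex.norm_real, Real.norm_eq_abs, abs_of_nonneg]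
    have := p_anti (show d n + 1 ≤ d (n+1) by rw [d_succ]; omega) x
    linarith
  have h4 : p (d (n+1)) x ≤ p (d n + 1) x := p_anti (by rw [d_succ]; omega) x
  have h5 : p (d (n+1) + 1) x ≤ p (d (n+1)) x := p_anti (by omega) x
  have h6 : K n x - h n x = (K n x - P (d n + 1) x) + (P (d n + 1) x - P (d (n+1)) x)
      - (h n x - P (d (n+1)) x) := by ring
  rw [h6]
  calc _ ≤ ‖K n x - P (d n + 1) x‖ + ‖P (d n + 1) x - P (d (n+1)) x‖ +
        ‖h n x - P (d (n+1)) x‖ :=
        (norm_sub_le _ _).trans (add_le_add (norm_add_le _ _) le_rfl)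
    _ ≤ _ := by rw [h3]; linarith

end MPb2bd43
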